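import Pool.Agent.Helper44.CM.Interface

/-! # Mollification for the constant coefficient Schauder estimate -/

set_option autoImplicit false
set_option linter.unusedSectionVars false

namespace MM56

open MeasureTheory Real Set Filter Topology CM

/-- the mollification row of block B2 -/
def ST_MOLL : Prop :=
  ∀ (n : ℕ) (κ : ℝ) (u : E n → ℝ) (M N : ℝ), ContDiff ℝ 2 u →
    (∀ x i j, |pd i (pd j u) x| ≤ M) → H0 N (AK (fun _ => 1) κ u) → ∀ δ : ℝ, 0 < δ →
    ∃ v : ℕ → E n → ℝ, (∀ m, ContDiff ℝ (⊤ : ℕ∞) (v m)) ∧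
      (∀ m x i j, |pd i (pd j (v m)) x| ≤ M) ∧
      (∀ m, H0 (N + δ) (AK (fun _ => 1) κ (v m))) ∧
      (∀ x, Tendsto (fun m => v m x) atTop (𝓝 (u x))) ∧
      (∀ x i, Tendsto (fun m => pd i (v m) x) atTop (𝓝 (pd i u x))) ∧
      (∀ x i j, Tendsto (fun m => pd i (pd j (v m)) x) atTop (𝓝 (pd i (pd j u) x)))

variable {n : ℕ}

theorem vec_eq (a : E n) : a = ∑ i, a i • EuclideanSpace.single i (1 : ℝ) := by
  have h := (EuclideanSpace.basisFun (Fin n) ℝ).sum_repr a
  simp only [EuclideanSpace.basisFun_repr, EuclideanSpace.basisFun_apply] at h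
  exact h.symm

theorem fd_apply (f : E n → ℝ) (x a : E n) : fderiv ℝ f x a = ∑ i, a i * pd i f x := by
  conv_lhs => rw [vec_eq a]
  rw [map_sum]
  refine Finset.sum_congr rfl fun i _ => ?_
  rw [map_smul, smul_eq_mul]
  rfl

theorem abs_coord_le (a : E n) (i : Fin n) : |a i| ≤ ‖a‖ := by
  have := PiLp.norm_apply_le a i
  simpa using this

theorem fd_norm_le (f : E n → ℝ) (x : E n) {B : ℝ} (h : ∀ i, |pd i f x| ≤ B) :
    ‖fderiv ℝ f x‖ ≤ n * B := by
  have hB : 0 ≤ (n : ℝ) * B := by
    rcases Nat.eq_zero_or_pos n with h0 | h0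
    · subst h0; simp
    · have := (abs_nonneg _).trans (h ⟨0, h0⟩)
      positivity
  refine ContinuousLinearMap.opNorm_le_bound _ hB fun a => ?_
  rw [fd_apply, Real.norm_eq_abs]
  calc |∑ i, a i * pd i f x| ≤ ∑ i, |a i * pd i f x| := Finset.abs_sum_le_sum_abs _ _
    _ ≤ ∑ _i : Fin n, ‖a‖ * B := by
        refine Finset.sum_le_sum fun i _ => ?_
        rw [abs_mul]
        exact mul_le_mul (abs_coord_le a i) (h i) (abs_nonneg _) (norm_nonneg _)
    _ = n * B * ‖a‖ := by
        rw [Finset.sum_const, Finset.card_univ, Fintype.card_fin, nsmul_eq_mul]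
        ring

theorem pd_cd {k : ℕ} {f : E n → ℝ} (hf : ContDiff ℝ ((k + 1 : ℕ)) f) (i : Fin n) :
    ContDiff ℝ k (pd i f) := by
  have h1 : ContDiff ℝ k (fderiv ℝ f) := hf.fderiv_right (by norm_cast)
  exact h1.clm_apply contDiff_const

theorem pd_lip {f : E n → ℝ} (hf : ContDiff ℝ 1 f) {B : ℝ} (h : ∀ x i, |pd i f x| ≤ B)
    (x y : E n) : |f x - f y| ≤ n * B * ‖x - y‖ := by
  have h1 := (convex_univ : Convex ℝ (univ : Set (E n))).norm_image_sub_le_of_norm_fderiv_le
    (𝕜 := ℝ) (f := f) (C := n * B) (fun z _ => (hf.differentiable (by norm_num)).differentiableAt)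
    (fun z _ => fd_norm_le f z (h z)) (mem_univ y) (mem_univ x)
  simpa using h1

/-- Lipschitz bound for the gradient -/
theorem grad_lip {u : E n → ℝ} (hu : ContDiff ℝ 2 u) {M : ℝ}
    (h : ∀ x i j, |pd i (pd j u) x| ≤ M) (x y a : E n) :
    |fderiv ℝ u x a - fderiv ℝ u y a| ≤ n * (n * M) * ‖x - y‖ * ‖a‖ := by
  rw [fd_apply, fd_apply, ← Finset.sum_sub_distrib]
  calc |∑ i, (a i * pd i u x - a i * pd i u y)|
      ≤ ∑ i, |a i * pd i u x - a i * pd i u y| := Finset.abs_sum_le_sum_abs _ _
    _ ≤ ∑ _i : Fin n, ‖a‖ * (n * M * ‖x - y‖) := by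
        refine Finset.sum_le_sum fun i _ => ?_
        rw [← mul_sub, abs_mul]
        have h1 : ContDiff ℝ 1 (pd i u) := by
          have := pd_cd (k := 1) (f := u) (by exact_mod_cast hu) i
          exact_mod_cast this
        exact mul_le_mul (abs_coord_le a i) (pd_lip h1 (fun z j => h z j i) x y) (abs_nonneg _)
          (norm_nonneg _)
    _ = _ := by
        rw [Finset.sum_const, Finset.card_univ, Fintype.card_fin, nsmul_eq_mul]
        ring

/-- the bump -/
noncomputable def bmp (n : ℕ) : ContDiffBump (0 : E n) := ⟨1/2, 1, by norm_num, by norm_num⟩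

/-- the kernel -/
noncomputable def rho (z : E n) : ℝ := (bmp n).normed volume z

theorem rho_nonneg (z : E n) : 0 ≤ rho z := (bmp n).nonneg_normed z

theorem rho_cd : ContDiff ℝ (⊤ : ℕ∞) (rho (n := n)) := (bmp n).contDiff_normed

theorem rho_cont : Continuous (rho (n := n)) := (bmp n).continuous_normed

theorem rho_cpt : HasCompactSupport (rho (n := n)) := (bmp n).hasCompactSupport_normed

theorem rho_int : Integrable (rho (n := n)) := (bmp n).integrable_normed

theorem rho_one : ∫ z : E n, rho z = 1 := (bmp n).integral_normed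

theorem rho_neg (z : E n) : rho (-z) = rho z := (bmp n).normed_neg z

theorem rho_zero {z : E n} (h : 1 ≤ ‖z‖) : rho z = 0 := by
  have h1 : Function.support (rho (n := n)) = Metric.ball 0 1 := (bmp n).support_normed_eq
  by_contra h2
  have h3 : z ∈ Function.support (rho (n := n)) := h2
  rw [h1] at h3
  simp only [Metric.mem_ball, dist_zero_right] at h3
  linarith

/-- mollification at scale `d` -/
noncomputable def mol (d : ℝ) (f : E n → ℝ) (x : E n) : ℝ := ∫ z, rho z * f (x - d • z)

theorem mol_integrable {g : E n → ℝ} (hg : Continuous g) :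
    Integrable (fun z => rho z * g z) := by
  have h : Continuous (fun z : E n => rho z * g z) := rho_cont.mul hg
  exact h.integrable_of_hasCompactSupport rho_cpt.mul_right

/-- integrals against `rho` of a bounded quantity -/
theorem rho_bd {g : E n → ℝ} {B : ℝ} (h : ∀ z, ‖z‖ ≤ 1 → |g z| ≤ B) :
    |∫ z, rho z * g z| ≤ B := by
  have h1 : ‖∫ z, rho z * g z‖ ≤ ∫ z : E n, rho z * B := by
    refine norm_integral_le_of_norm_le (rho_int.mul_const _) (Eventually.of_forall fun z => ?_)
    rw [norm_mul, Real.norm_eq_abs, Real.norm_eq_abs, abs_of_nonneg (rho_nonneg z)]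
    by_cases hz : 1 ≤ ‖z‖
    · rw [rho_zero hz]; simp
    · exact mul_le_mul_of_nonneg_left (h z (not_le.1 hz).le) (rho_nonneg z)
  rw [integral_mul_const, rho_one, one_mul, Real.norm_eq_abs] at h1
  exact h1

theorem mol_hasFDerivAt (d : ℝ) {f : E n → ℝ} (hf : ContDiff ℝ 1 f) (x : E n) :
    HasFDerivAt (mol d f) (∫ z, rho z • fderiv ℝ f (x - d • z)) x := by
  have hfc : Continuous f := hf.continuous
  have hdc : Continuous (fderiv ℝ f) := hf.continuous_fderiv (by norm_num)
  -- bound of the derivative on a compact set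
  obtain ⟨B, hB⟩ : ∃ B, ∀ y ∈ Metric.closedBall x 1, ∀ z, ‖z‖ ≤ 1 →
      ‖fderiv ℝ f (y - d • z)‖ ≤ B := by
    have hc : IsCompact (Metric.closedBall x 1 ×ˢ Metric.closedBall (0 : E n) 1) :=
      (isCompact_closedBall x 1).prod (isCompact_closedBall 0 1)
    have hcont : Continuous fun q : E n × E n => ‖fderiv ℝ f (q.1 - d • q.2)‖ :=
      (hdc.comp (by fun_prop)).norm
    obtain ⟨B, hB⟩ := hc.bddAbove_image hcont.continuousOn
    refine ⟨B, fun y hy z hz => hB ⟨(y, z), ⟨hy, by simpa using hz⟩, rfl⟩⟩
  refine hasFDerivAt_integral_of_dominated_of_fderiv_le (𝕜 := ℝ)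
    (F := fun y z => rho z * f (y - d • z))
    (F' := fun y z => rho z • fderiv ℝ f (y - d • z)) (bound := fun z => rho z * B)
    (s := Metric.closedBall x 1) (Metric.closedBall_mem_nhds x one_pos) ?_ ?_ ?_ ?_ ?_ ?_
  · refine Eventually.of_forall fun y => ?_
    exact (rho_cont.mul (hfc.comp (by fun_prop))).aestronglyMeasurable
  · exact mol_integrable (g := fun z => f (x - d • z)) (by fun_prop)
  · exact (rho_cont.smul (hdc.comp (by fun_prop))).aestronglyMeasurable
  · refine Eventually.of_forall fun z y hy => ?_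
    rw [norm_smul, Real.norm_eq_abs, abs_of_nonneg (rho_nonneg z)]
    by_cases hz : 1 ≤ ‖z‖
    · rw [rho_zero hz]; simp
    · exact mul_le_mul_of_nonneg_left (hB y hy z (not_le.1 hz).le) (rho_nonneg z)
  · exact rho_int.mul_const B
  · refine Eventually.of_forall fun z y _ => ?_
    have h1 : HasFDerivAt f (fderiv ℝ f (y - d • z)) (y - d • z) :=
      (hf.differentiable (by norm_num)).differentiableAt.hasFDerivAt
    have h2 : HasFDerivAt (fun y : E n => y - d • z) (ContinuousLinearMap.id ℝ (E n)) y :=
      (hasFDerivAt_id y).sub_const _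
    have h3 := (h1.comp y h2).const_mul (rho z)
    simpa using h3

theorem mol_fd (d : ℝ) {f : E n → ℝ} (hf : ContDiff ℝ 1 f) (x a : E n) :
    fderiv ℝ (mol d f) x a = ∫ z, rho z * fderiv ℝ f (x - d • z) a := by
  have hdc : Continuous (fderiv ℝ f) := hf.continuous_fderiv (by norm_num)
  rw [(mol_hasFDerivAt d hf x).fderiv, ContinuousLinearMap.integral_apply]
  · rfl
  · have h : Continuous (fun z : E n => rho z • fderiv ℝ f (x - d • z)) :=
      rho_cont.smul (hdc.comp (by fun_prop))
    exact h.integrable_of_hasCompactSupport rho_cpt.smul_right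

theorem mol_pd (d : ℝ) {f : E n → ℝ} (hf : ContDiff ℝ 1 f) (i : Fin n) :
    pd i (mol d f) = mol d (pd i f) := by
  funext x
  exact mol_fd d hf x _

theorem mol_cd {d : ℝ} (hd : 0 < d) {f : E n → ℝ} (hf : Continuous f) :
    ContDiff ℝ (⊤ : ℕ∞) (mol d f) := by
  have h1 : mol d f = fun x => |((d⁻¹) ^ n)| • ∫ w, rho (d⁻¹ • w) • f (x - w) := by
    funext x
    have h1 := Measure.integral_comp_smul (volume : Measure (E n))
      (fun w => rho (d⁻¹ • w) • f (x - w)) d
    have h2 : (fun u : E n => rho (d⁻¹ • d • u) • f (x - d • u)) =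
        fun u => rho u * f (x - d • u) := by
      funext u
      rw [smul_smul, inv_mul_cancel₀ hd.ne', one_smul, smul_eq_mul]
    rw [h2] at h1
    unfold mol
    rw [h1]
    simp
  rw [h1]
  have h2 : ContDiff ℝ (⊤ : ℕ∞) (fun x => ∫ w, rho (d⁻¹ • w) • f (x - w)) := by
    have hk : HasCompactSupport (fun w : E n => rho (d⁻¹ • w)) :=
      rho_cpt.comp_homeomorph (Homeomorph.smulOfNeZero d⁻¹ (inv_ne_zero hd.ne'))
    have hs : ContDiff ℝ (⊤ : ℕ∞) (fun w : E n => rho (d⁻¹ • w)) :=
      rho_cd.comp (contDiff_const_smul _)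
    exact hk.contDiff_convolution_left (ContinuousLinearMap.lsmul ℝ ℝ) hs hf.locallyIntegrable
      (μ := volume)
  exact h2.const_smul _

/-- convergence -/
theorem mol_tendsto {f : E n → ℝ} (hf : Continuous f) {d : ℕ → ℝ} (hd : Tendsto d atTop (𝓝 0))
    (x : E n) : Tendsto (fun m => mol (d m) f x) atTop (𝓝 (f x)) := by
  rw [Metric.tendsto_atTop]
  intro ε hε
  have hc := Metric.continuous_iff.1 hf x (ε / 2) (by positivity)
  obtain ⟨δ, hδ, h1⟩ := hc
  obtain ⟨m0, hm0⟩ := Metric.tendsto_atTop.1 hd δ hδ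
  refine ⟨m0, fun m hm => ?_⟩
  have h2 := hm0 m hm
  rw [Real.dist_eq, sub_zero] at h2
  have h3 : mol (d m) f x - f x = ∫ z, rho z * (f (x - d m • z) - f x) := by
    unfold mol
    simp only [mul_sub]
    rw [integral_sub (mol_integrable (by fun_prop)) (rho_int.mul_const _),
      integral_mul_const, rho_one, one_mul]
  rw [Real.dist_eq, h3]
  refine lt_of_le_of_lt (rho_bd (B := ε / 2) fun z hz => ?_) (by linarith)
  have h4 : dist (x - d m • z) x < δ := by
    rw [dist_eq_norm]
    have : x - d m • z - x = -(d m • z) := by abel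
    rw [this, norm_neg, norm_smul, Real.norm_eq_abs]
    calc |d m| * ‖z‖ ≤ |d m| * 1 := mul_le_mul_of_nonneg_left hz (abs_nonneg _)
      _ < δ := by linarith
  have h5 := h1 (x - d m • z) h4
  rw [Real.dist_eq] at h5
  exact h5.le

/-- mollification preserves `H0` -/
theorem mol_H0 {N d : ℝ} {f : E n → ℝ} (hc : Continuous f) (hf : H0 N f) : H0 N (mol d f) := by
  refine ⟨fun x => rho_bd fun z _ => hf.1 _, fun x y => ?_⟩
  have h3 : mol d f x - mol d f y = ∫ z, rho z * (f (x - d • z) - f (y - d • z)) := by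
    unfold mol
    simp only [mul_sub]
    rw [integral_sub (mol_integrable (by fun_prop))
      (mol_integrable (by fun_prop))]
  rw [h3]
  refine rho_bd fun z _ => ?_
  have := hf.2 (x - d • z) (y - d • z)
  rwa [dist_sub_right] at this

/-- the error term -/
noncomputable def err (d : ℝ) (u : E n → ℝ) (x : E n) : ℝ :=
  d * ∫ z, rho z * fderiv ℝ u (x - d • z) z

theorem mol_AK {u : E n → ℝ} (hu : ContDiff ℝ 2 u) (d κ : ℝ) (x : E n) :
    AK (fun _ => 1) κ (mol d u) x = mol d (AK (fun _ => 1) κ u) x + err d u x := by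
  have hu1 : ContDiff ℝ 1 u := hu.of_le (by norm_num)
  have hp1 : ∀ j, ContDiff ℝ 1 (pd j u) := by
    intro j
    have := pd_cd (k := 1) (f := u) (by exact_mod_cast hu) j
    exact_mod_cast this
  have hp2 : ∀ i j, Continuous (pd i (pd j u)) := by
    intro i j
    have := pd_cd (k := 0) (f := pd j u) (by exact_mod_cast hp1 j) i
    exact this.continuous
  have hdc : Continuous (fderiv ℝ u) := hu1.continuous_fderiv (by norm_num)
  have huc : Continuous u := hu.continuous
  have e1 : tr2 (1 : Mt n) (hess (mol d u) x) =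
      ∫ z, rho z * tr2 (1 : Mt n) (hess u (x - d • z)) := by
    unfold tr2
    simp only [hess, Matrix.of_apply]
    simp only [Finset.mul_sum]
    rw [integral_finsetSum]
    · refine Finset.sum_congr rfl fun i _ => ?_
      rw [integral_finsetSum]
      · refine Finset.sum_congr rfl fun j _ => ?_
        rw [mol_pd d hu1 j, mol_pd d (hp1 j) i]
        unfold mol
        rw [← integral_const_mul]
        refine integral_congr_ae (Eventually.of_forall fun z => ?_)
        simp only
        ring
      · intro j _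
        exact mol_integrable (g := fun z => (1 : Mt n) i j * pd i (pd j u) (x - d • z))
          (continuous_const.mul ((hp2 i j).comp (by fun_prop)))
    · intro i _
      refine integrable_finsetSum _ fun j _ => ?_
      exact mol_integrable (g := fun z => (1 : Mt n) i j * pd i (pd j u) (x - d • z))
          (continuous_const.mul ((hp2 i j).comp (by fun_prop)))
  have hfz : Continuous fun z : E n => fderiv ℝ u (x - d • z) z :=
    (hdc.comp (by fun_prop)).clm_apply continuous_id
  have hfx : Continuous fun z : E n => fderiv ℝ u (x - d • z) (x - d • z) :=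
    (hdc.comp (by fun_prop)).clm_apply (by fun_prop)
  have hht : Continuous fun z : E n => tr2 (1 : Mt n) (hess u (x - d • z)) := by
    unfold tr2
    simp only [hess, Matrix.of_apply]
    refine continuous_finsetSum _ fun i _ => continuous_finsetSum _ fun j _ => ?_
    exact continuous_const.mul ((hp2 i j).comp (by fun_prop))
  have huz : Continuous fun z : E n => u (x - d • z) := by fun_prop
  have e2 : eul (mol d u) x = (∫ z, rho z * fderiv ℝ u (x - d • z) (x - d • z)) + err d u x := by
    unfold eul err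
    rw [mol_fd d hu1, ← integral_const_mul, ← integral_add (mol_integrable hfx)
      ((mol_integrable hfz).const_mul d)]
    refine integral_congr_ae (Eventually.of_forall fun z => ?_)
    simp only
    rw [map_sub, map_smul, smul_eq_mul]
    ring
  unfold AK LL
  rw [e1, e2]
  have e3 : mol d (fun x => -(tr2 (1 : Mt n) (hess u x) - eul u x) - κ * u x) x =
      -((∫ z, rho z * tr2 (1 : Mt n) (hess u (x - d • z))) -
        ∫ z, rho z * fderiv ℝ u (x - d • z) (x - d • z)) - κ * mol d u x := by
    unfold mol eul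
    have i1 := mol_integrable hht
    have i2 := mol_integrable hfx
    have i3 := mol_integrable huz
    have i4 : Integrable (fun z => -(rho z * tr2 (1 : Mt n) (hess u (x - d • z)) -
        rho z * fderiv ℝ u (x - d • z) (x - d • z))) := (i1.sub i2).neg
    rw [← integral_sub i1 i2, ← integral_neg, ← integral_const_mul, ← integral_sub
      i4 (i3.const_mul κ)]
    refine integral_congr_ae (Eventually.of_forall fun z => ?_)
    simp only
    ring
  rw [e3]
  ring

theorem err_bd {u : E n → ℝ} (hu : ContDiff ℝ 2 u) {M : ℝ}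
    (h : ∀ x i j, |pd i (pd j u) x| ≤ M) (hL : 0 ≤ (n : ℝ) * (n * M)) {d : ℝ} (hd : 0 ≤ d)
    (x : E n) : |err d u x| ≤ n * (n * M) * d ^ 2 := by
  have hu1 : ContDiff ℝ 1 u := hu.of_le (by norm_num)
  have hdc : Continuous (fderiv ℝ u) := hu1.continuous_fderiv (by norm_num)
  have hfz : Continuous fun z : E n => fderiv ℝ u (x - d • z) z :=
    (hdc.comp (by fun_prop)).clm_apply continuous_id
  have hf0 : Continuous fun z : E n => fderiv ℝ u x z := by fun_prop
  have h0 : ∫ z, rho z * fderiv ℝ u x z = 0 := by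
    have h1 := integral_neg_eq_self (fun z : E n => rho z * fderiv ℝ u x z) volume
    have h2 : (fun z : E n => rho (-z) * fderiv ℝ u x (-z)) =
        fun z => -(rho z * fderiv ℝ u x z) := by
      funext z
      rw [rho_neg, map_neg]
      ring
    rw [h2, integral_neg] at h1
    linarith
  have h1 : err d u x = d * ∫ z, rho z * (fderiv ℝ u (x - d • z) z - fderiv ℝ u x z) := by
    unfold err
    simp only [mul_sub]
    rw [integral_sub (mol_integrable hfz) (mol_integrable hf0), h0, mul_sub, mul_zero, sub_zero]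
  rw [h1, abs_mul, abs_of_nonneg hd]
  have h2 : |∫ z, rho z * (fderiv ℝ u (x - d • z) z - fderiv ℝ u x z)| ≤ n * (n * M) * d := by
    refine rho_bd fun z hz => ?_
    refine (grad_lip hu h (x - d • z) x z).trans ?_
    have h3 : ‖x - d • z - x‖ ≤ d := by
      have : x - d • z - x = -(d • z) := by abel
      rw [this, norm_neg, norm_smul, Real.norm_eq_abs, abs_of_nonneg hd]
      calc d * ‖z‖ ≤ d * 1 := mul_le_mul_of_nonneg_left hz hd
        _ = d := mul_one d
    calc n * (n * M) * ‖x - d • z - x‖ * ‖z‖ ≤ n * (n * M) * d * 1 :=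
          mul_le_mul (mul_le_mul_of_nonneg_left h3 hL) hz (norm_nonneg _) (mul_nonneg hL hd)
      _ = _ := mul_one _
  calc d * _ ≤ d * (n * (n * M) * d) := mul_le_mul_of_nonneg_left h2 hd
    _ = _ := by ring

theorem err_lip {u : E n → ℝ} (hu : ContDiff ℝ 2 u) {M : ℝ}
    (h : ∀ x i j, |pd i (pd j u) x| ≤ M) (hL : 0 ≤ (n : ℝ) * (n * M)) {d : ℝ} (hd : 0 ≤ d)
    (x y : E n) : |err d u x - err d u y| ≤ n * (n * M) * d * dist x y := by
  have hu1 : ContDiff ℝ 1 u := hu.of_le (by norm_num)
  have hdc : Continuous (fderiv ℝ u) := hu1.continuous_fderiv (by norm_num)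
  have hfz : ∀ x : E n, Continuous fun z : E n => fderiv ℝ u (x - d • z) z := fun x =>
    (hdc.comp (by fun_prop)).clm_apply continuous_id
  have h1 : err d u x - err d u y =
      d * ∫ z, rho z * (fderiv ℝ u (x - d • z) z - fderiv ℝ u (y - d • z) z) := by
    unfold err
    simp only [mul_sub]
    rw [integral_sub (mol_integrable (hfz x)) (mol_integrable (hfz y)), mul_sub]
  rw [h1, abs_mul, abs_of_nonneg hd]
  have h2 : |∫ z, rho z * (fderiv ℝ u (x - d • z) z - fderiv ℝ u (y - d • z) z)| ≤
      n * (n * M) * dist x y := by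
    refine rho_bd fun z hz => ?_
    refine (grad_lip hu h (x - d • z) (y - d • z) z).trans ?_
    have h3 : ‖x - d • z - (y - d • z)‖ = dist x y := by
      rw [dist_eq_norm]; congr 1; abel
    rw [h3]
    calc n * (n * M) * dist x y * ‖z‖ ≤ n * (n * M) * dist x y * 1 :=
          mul_le_mul_of_nonneg_left hz (mul_nonneg hL dist_nonneg)
      _ = _ := mul_one _
  calc d * _ ≤ d * (n * (n * M) * dist x y) := mul_le_mul_of_nonneg_left h2 hd
    _ = _ := by ring

theorem st_MOLL : ST_MOLL := by
  intro n κ u M N hu hM hN δ hδ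
  have hu1 : ContDiff ℝ 1 u := hu.of_le (by norm_num)
  have hp1 : ∀ j, ContDiff ℝ 1 (pd j u) := by
    intro j
    have := pd_cd (k := 1) (f := u) (by exact_mod_cast hu) j
    exact_mod_cast this
  have hp2 : ∀ i j, Continuous (pd i (pd j u)) := by
    intro i j
    have := pd_cd (k := 0) (f := pd j u) (by exact_mod_cast hp1 j) i
    exact this.continuous
  have hL : 0 ≤ (n : ℝ) * (n * M) := by
    rcases Nat.eq_zero_or_pos n with h0 | h0
    · subst h0; simp
    · have := (abs_nonneg _).trans (hM 0 ⟨0, h0⟩ ⟨0, h0⟩)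
      positivity
  set L : ℝ := (n : ℝ) * (n * M) with hLdef
  have hdc : Continuous (fderiv ℝ u) := hu1.continuous_fderiv (by norm_num)
  have hAc : Continuous (AK (fun _ => 1) κ u) := by
    unfold AK LL tr2 eul
    simp only [hess, Matrix.of_apply]
    have h1 : Continuous fun x : E n => ∑ i, ∑ j, (1 : Mt n) i j * pd i (pd j u) x :=
      continuous_finsetSum _ fun i _ => continuous_finsetSum _ fun j _ =>
        continuous_const.mul (hp2 i j)
    have h2 : Continuous fun x : E n => fderiv ℝ u x x := hdc.clm_apply continuous_id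
    exact (h1.sub h2).neg.sub (continuous_const.mul hu.continuous)
  set d0 : ℝ := min (1 / 2) (δ / (L + 1)) with hd0
  have hd0p : 0 < d0 := lt_min (by norm_num) (by positivity)
  set d : ℕ → ℝ := fun m => d0 / (m + 1) with hd
  have hdp : ∀ m, 0 < d m := fun m => by simp only [hd]; positivity
  have hdle : ∀ m, d m ≤ d0 := fun m => by
    simp only [hd]
    exact div_le_self hd0p.le (by linarith [(Nat.cast_nonneg m : (0 : ℝ) ≤ m)])
  have hdh : ∀ m, d m ≤ 1 / 2 := fun m => (hdle m).trans (min_le_left _ _)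
  have hLd : ∀ m, L * d m ≤ δ := fun m => by
    have h1 : d m ≤ δ / (L + 1) := (hdle m).trans (min_le_right _ _)
    calc L * d m ≤ (L + 1) * (δ / (L + 1)) :=
          mul_le_mul (by linarith) h1 (hdp m).le (by linarith)
      _ = δ := by field_simp
  have hdt : Tendsto d atTop (𝓝 0) := by
    simp only [hd]
    exact tendsto_const_div_atTop_nhds_zero_nat d0 |>.comp (tendsto_add_atTop_nat 1) |>.congr
      fun m => by simp
  refine ⟨fun m => mol (d m) u, fun m => mol_cd (hdp m) hu.continuous, ?_, ?_, ?_, ?_, ?_⟩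
  · intro m x i j
    rw [mol_pd _ hu1 j, mol_pd _ (hp1 j) i]
    exact rho_bd fun z _ => hM _ i j
  · intro m
    have h1 := mol_H0 (d := d m) hAc hN
    have hb := fun x => err_bd hu hM hL (hdp m).le x
    have hl := fun x y => err_lip hu hM hL (hdp m).le x y
    have h2 : L * (d m) ^ 2 ≤ L * d m * (1 / 2) := by
      have := mul_le_mul_of_nonneg_left (hdh m) (mul_nonneg hL (hdp m).le)
      calc L * (d m) ^ 2 = L * d m * d m := by ring
        _ ≤ _ := this
    have hLd0 : 0 ≤ L * d m := mul_nonneg hL (hdp m).le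
    constructor
    · intro x
      rw [mol_AK hu]
      refine (abs_add_le _ _).trans ?_
      have h3 := h1.1 x
      have h4 := hb x
      have h5 := hLd m
      linarith
    · intro x y
      rw [mol_AK hu, mol_AK hu]
      have h3 : mol (d m) (AK (fun _ => 1) κ u) x + err (d m) u x -
          (mol (d m) (AK (fun _ => 1) κ u) y + err (d m) u y) =
          (mol (d m) (AK (fun _ => 1) κ u) x - mol (d m) (AK (fun _ => 1) κ u) y) +
          (err (d m) u x - err (d m) u y) := by ring
      rw [h3]
      refine (abs_add_le _ _).trans ?_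
      rw [add_mul]
      refine add_le_add (h1.2 x y) ?_
      rcases le_total (dist x y) 1 with h4 | h4
      · refine (hl x y).trans ?_
        have h5 : dist x y ≤ √(dist x y) := by
          refine Real.le_sqrt_of_sq_le ?_
          nlinarith [dist_nonneg (x := x) (y := y)]
        exact mul_le_mul (hLd m) h5 dist_nonneg hδ.le
      · have h5 : 1 ≤ √(dist x y) := by
          rw [Real.one_le_sqrt]; exact h4
        have h6 : |err (d m) u x - err (d m) u y| ≤ δ := by
          refine (abs_sub _ _).trans ?_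
          have := hb x
          have := hb y
          have := hLd m
          linarith
        calc _ ≤ δ := h6
          _ ≤ δ * √(dist x y) := le_mul_of_one_le_right hδ.le h5
  · intro x
    exact mol_tendsto hu.continuous hdt x
  · intro x i
    have h1 : (fun m => pd i (mol (d m) u) x) = fun m => mol (d m) (pd i u) x := by
      funext m
      rw [mol_pd _ hu1 i]
    rw [h1]
    exact mol_tendsto (hp1 i).continuous hdt x
  · intro x i j
    have h1 : (fun m => pd i (pd j (mol (d m) u)) x) =
        fun m => mol (d m) (pd i (pd j u)) x := by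
      funext m
      rw [mol_pd _ hu1 j, mol_pd _ (hp1 j) i]
    rw [h1]
    exact mol_tendsto (hp2 i j) hdt x

/-- mollification preserves evenness -/
theorem mol_ev (d : ℝ) {f : E n → ℝ} (hf : IsEv f) : IsEv (mol d f) := by
  intro x
  unfold mol
  have h1 := integral_neg_eq_self (fun z : E n => rho z * f (-x - d • z)) volume
  rw [← h1]
  refine integral_congr_ae (Eventually.of_forall fun z => ?_)
  simp only
  rw [rho_neg]
  have : -x - d • -z = -(x - d • z) := by rw [smul_neg]; abel
  rw [this, hf]

end MM56
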